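import Pool.Agent.Work.MP_4eb3f9_an.Interface

/-!
# Block A, part 1: two facts on positive semidefinite matrices
-/

open Complex MeasureTheory Filter Topology Matrix
open scoped ContDiff ComplexOrder

namespace CMA
namespace BlockA

/-- `det M ≤ exp (tr M - size)` for positive semidefinite matrices. -/
lemma det_le_exp {ι : Type*} [Fintype ι] [DecidableEq ι] {M : Matrix ι ι ℂ}
    (hM : M.PosSemidef) : M.det.re ≤ Real.exp (M.trace.re - Fintype.card ι) := by
  have hH := hM.isHermitian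
  have h1 : M.det.re = ∏ i, hH.eigenvalues i := by
    rw [hH.det_eq_prod_eigenvalues]
    have : (∏ i, ((hH.eigenvalues i : ℝ) : ℂ)) = ((∏ i, hH.eigenvalues i : ℝ) : ℂ) := by
      push_cast; rfl
    have h2 : (∏ i, (RCLike.ofReal (hH.eigenvalues i) : ℂ)) = ((∏ i, hH.eigenvalues i : ℝ) : ℂ) := by
      push_cast; rfl
    rw [h2, Complex.ofReal_re]
  have h2 : M.trace.re = ∑ i, hH.eigenvalues i := by
    rw [hH.trace_eq_sum_eigenvalues]
    have h2 : (∑ i, (RCLike.ofReal (hH.eigenvalues i) : ℂ)) = ((∑ i, hH.eigenvalues i : ℝ) : ℂ) := by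
      push_cast; rfl
    rw [h2, Complex.ofReal_re]
  rw [h1, h2]
  calc ∏ i, hH.eigenvalues i ≤ ∏ i, Real.exp (hH.eigenvalues i - 1) := by
        refine Finset.prod_le_prod (fun i _ => hM.eigenvalues_nonneg i) (fun i _ => ?_)
        have := Real.add_one_le_exp (hH.eigenvalues i - 1)
        linarith
    _ = Real.exp (∑ i, hH.eigenvalues i - Fintype.card ι) := by
        rw [← Real.exp_sum]
        congr 1
        rw [Finset.sum_sub_distrib]
        simp

/-- Congruence to the identity. -/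
lemma exists_conj {ι : Type*} [Fintype ι] [DecidableEq ι] {S : Matrix ι ι ℂ}
    (hS : S.PosDef) : ∃ Y : Matrix ι ι ℂ, Yᴴ * S * Y = 1 ∧ ‖Y.det‖ ^ 2 * S.det.re = 1 := by
  obtain ⟨B, hB⟩ : ∃ B : Matrix ι ι ℂ, S = Bᴴ * B := by
    open scoped MatrixOrder in
    exact (CStarAlgebra.nonneg_iff_eq_star_mul_self.mp hS.posSemidef.nonneg)
  have hdet : IsUnit B.det := by
    have h := hS.det_pos
    rw [hB, Matrix.det_mul] at h
    exact (right_ne_zero_of_mul h.ne').isUnit
  have hY : B⁻¹ᴴ * S * B⁻¹ = 1 := by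
    rw [hB, Matrix.conjTranspose_nonsing_inv]
    have hu : IsUnit Bᴴ.det := by rw [Matrix.det_conjTranspose]; exact hdet.star
    rw [← Matrix.mul_assoc, Matrix.nonsing_inv_mul _ hu, Matrix.one_mul, Matrix.mul_nonsing_inv _ hdet]
  refine ⟨B⁻¹, hY, ?_⟩
  have h3 := congrArg Matrix.det hY
  rw [Matrix.det_mul, Matrix.det_mul, Matrix.det_conjTranspose, Matrix.det_one] at h3
  have h4 : star (B⁻¹.det) * S.det * B⁻¹.det = ((‖B⁻¹.det‖ ^ 2 : ℝ) : ℂ) * S.det := by
    rw [mul_right_comm, show star (B⁻¹.det) = starRingEnd ℂ (B⁻¹.det) from rfl, Complex.conj_mul']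
    push_cast; rfl
  rw [h4] at h3
  have h5 := congrArg Complex.re h3
  rw [Complex.re_ofReal_mul] at h5
  simpa using h5

end BlockA
end CMA
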