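import Pool.Agent.Work.MP_4eb3f9_an_helper17.A1

/-!
# Block A, part 2: block Toeplitz matrices
-/

open Complex MeasureTheory Filter Topology Matrix
open scoped ContDiff ComplexOrder

namespace CMA
namespace BlockA

variable {N : ℕ}

/-- The character `e^{i k θ}`. -/
noncomputable def ch (k : ℕ) (θ : ℝ) : ℂ := Complex.exp ((k : ℂ) * (θ : ℂ) * Complex.I)

lemma continuous_ch (k : ℕ) : Continuous (ch k) := by
  unfold ch; fun_prop

lemma ch_eq_pow (k : ℕ) (θ : ℝ) : ch k θ = (ch 1 θ) ^ k := by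
  rw [ch, ch, ← Complex.exp_nat_mul]; congr 1; push_cast; ring

lemma star_ch_mul (k : ℕ) (θ : ℝ) : star (ch k θ) * ch k θ = 1 := by
  rw [show star (ch k θ) = starRingEnd ℂ (ch k θ) from rfl, Complex.conj_mul', ch,
    show ((k : ℂ) * (θ : ℂ) * Complex.I) = ((k * θ : ℝ) : ℂ) * Complex.I by push_cast; ring,
    Complex.norm_exp_ofReal_mul_I]
  simp

lemma star_ch_mul_add (i j l : ℕ) (θ : ℝ) :
    star (ch (i + l) θ) * ch (j + l) θ = star (ch i θ) * ch j θ := by
  have h1 : ∀ k, ch (k + l) θ = ch k θ * ch l θ := fun k => by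
    rw [ch_eq_pow (k + l), pow_add, ← ch_eq_pow, ← ch_eq_pow]
  rw [h1, h1, star_mul', mul_mul_mul_comm, star_ch_mul, mul_one]

lemma ch_mul_star_ch (k : ℕ) (s t : ℝ) :
    ch k s * star (ch k t) = Complex.exp (((s - t : ℝ) : ℂ) * Complex.I) ^ k := by
  rw [ch, ch, show star (Complex.exp ((k : ℂ) * (t : ℂ) * Complex.I))
    = starRingEnd ℂ (Complex.exp ((k : ℂ) * (t : ℂ) * Complex.I)) from rfl, ← Complex.exp_conj,
    ← Complex.exp_add, ← Complex.exp_nat_mul]
  congr 1
  simp only [map_mul, Complex.conj_natCast, Complex.conj_ofReal, Complex.conj_I]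
  push_cast
  ring

/-- Equidistant nodes. -/
noncomputable def nd (n : ℕ) (t : ℝ) (j : ℕ) : ℝ := t + 2 * Real.pi * j / n

lemma dft_sum {n : ℕ} (t : ℝ) (i j : Fin n) :
    ∑ k : Fin n, ch k (nd n t i) * star (ch k (nd n t j)) = if i = j then (n : ℂ) else 0 := by
  have hn : (n : ℝ) ≠ 0 := by
    have := i.pos
    positivity
  simp only [ch_mul_star_ch]
  rw [Fin.sum_univ_eq_sum_range (fun k => Complex.exp (((nd n t i - nd n t j : ℝ) : ℂ) * Complex.I) ^ k) n]
  split_ifs with hij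
  · subst hij; simp
  · have hd : nd n t i - nd n t j = 2 * Real.pi * (((i : ℕ) : ℝ) - ((j : ℕ) : ℝ)) / n := by
      unfold nd; ring
    have hne : Complex.exp (((nd n t i - nd n t j : ℝ) : ℂ) * Complex.I) ≠ 1 := by
      intro h
      obtain ⟨m, hm⟩ := Complex.exp_eq_one_iff.1 h
      have h1 : ((nd n t i - nd n t j : ℝ) : ℂ) = ((m * (2 * Real.pi) : ℝ) : ℂ) := by
        have := mul_right_cancel₀ Complex.I_ne_zero (hm.trans (by ring :
          (m : ℂ) * (2 * (Real.pi : ℂ) * Complex.I) = ((m : ℂ) * (2 * (Real.pi : ℂ))) * Complex.I))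
        rw [this]; push_cast; ring
      have h2 := Complex.ofReal_injective h1
      rw [hd] at h2
      have h3 : ((i : ℕ) : ℝ) - ((j : ℕ) : ℝ) = m * n := by
        field_simp at h2
        have := Real.pi_pos
        nlinarith [h2]
      have h4 : ((i : ℕ) : ℤ) - ((j : ℕ) : ℤ) = m * n := by exact_mod_cast h3
      have h5 : m = 0 := by
        by_contra hm0
        have hi := i.isLt
        have hj := j.isLt
        have h6 : (n : ℤ) ≤ |m * n| := by
          rw [abs_mul]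
          have : (1 : ℤ) ≤ |m| := Int.one_le_abs hm0
          have h7 : |(n : ℤ)| = n := abs_of_nonneg (by positivity)
          rw [h7]; nlinarith
        rw [← h4] at h6
        have h8 : |((i : ℕ) : ℤ) - ((j : ℕ) : ℤ)| < n := by
          rw [abs_lt]; constructor <;> omega
        omega
      rw [h5] at h4
      apply hij
      ext
      omega
    have hpow : Complex.exp (((nd n t i - nd n t j : ℝ) : ℂ) * Complex.I) ^ n = 1 := by
      rw [← Complex.exp_nat_mul, hd]
      apply Complex.exp_eq_one_iff.2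
      refine ⟨((i : ℕ) : ℤ) - ((j : ℕ) : ℤ), ?_⟩
      have hn' : (n : ℂ) ≠ 0 := by exact_mod_cast hn
      push_cast
      field_simp
    have := mul_geom_sum (Complex.exp (((nd n t i - nd n t j : ℝ) : ℂ) * Complex.I)) n
    rw [hpow, sub_self] at this
    exact (mul_eq_zero.1 this).resolve_left (sub_ne_zero.2 hne)


/-- The Fourier matrix. -/
noncomputable def dft (n : ℕ) (t : ℝ) : Matrix (Fin n) (Fin n) ℂ := fun j k => ch k (nd n t j)

lemma dft_mul (n : ℕ) (t : ℝ) : dft n t * (dft n t)ᴴ = (n : ℂ) • (1 : Matrix (Fin n) (Fin n) ℂ) := by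
  ext i j
  rw [Matrix.mul_apply, Matrix.smul_apply, Matrix.one_apply]
  simp only [dft, Matrix.conjTranspose_apply]
  rw [dft_sum]
  simp

lemma dft_mul' (n : ℕ) (t : ℝ) : (dft n t)ᴴ * dft n t = (n : ℂ) • (1 : Matrix (Fin n) (Fin n) ℂ) := by
  rcases Nat.eq_zero_or_pos n with rfl | hn
  · ext i; exact i.elim0
  · have hn' : (n : ℂ) ≠ 0 := by exact_mod_cast hn.ne'
    have h1 : dft n t * ((n : ℂ)⁻¹ • (dft n t)ᴴ) = 1 := by
      rw [Matrix.mul_smul, dft_mul, smul_smul, inv_mul_cancel₀ hn', one_smul]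
    have h2 := mul_eq_one_comm.1 h1
    rw [Matrix.smul_mul] at h2
    rw [← h2, smul_smul, mul_inv_cancel₀ hn', one_smul]

lemma dft_sum' {n : ℕ} (t : ℝ) (k l : Fin n) :
    ∑ j : Fin n, star (ch k (nd n t j)) * ch l (nd n t j) = if k = l then (n : ℂ) else 0 := by
  have h := congrFun (congrFun (dft_mul' n t) k) l
  rw [Matrix.mul_apply, Matrix.smul_apply, Matrix.one_apply] at h
  simp only [dft, Matrix.conjTranspose_apply] at h
  rw [h]
  simp

/-- The block Toeplitz matrix of `W`, with frequencies `0, ..., n-1`. -/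
noncomputable def T (W : ℝ → Matrix (Fin N) (Fin N) ℂ) (n : ℕ) :
    Matrix (Fin N × Fin n) (Fin N × Fin n) ℂ :=
  fun p q => (2 * (Real.pi : ℂ))⁻¹ *
    ∫ θ in (0 : ℝ)..(2 * Real.pi), star (ch p.2 θ) * ch q.2 θ * W θ p.1 q.1

/-- The vector polynomial with coefficients `x`. -/
noncomputable def pv {n : ℕ} (x : Fin N × Fin n → ℂ) (θ : ℝ) : Fin N → ℂ :=
  fun a => ∑ k : Fin n, ch k θ * x (a, k)

lemma continuous_pv {n : ℕ} (x : Fin N × Fin n → ℂ) (a : Fin N) :
    Continuous (fun θ => pv x θ a) := by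
  unfold pv
  exact continuous_finsetSum _ fun k _ => (continuous_ch _).mul continuous_const

lemma form_expand {n : ℕ} (V : Matrix (Fin N) (Fin N) ℂ) (x y : Fin N × Fin n → ℂ) (θ : ℝ) :
    star (pv x θ) ⬝ᵥ (V *ᵥ pv y θ) =
      ∑ p : Fin N × Fin n, ∑ q : Fin N × Fin n,
        star (x p) * y q * (star (ch p.2 θ) * ch q.2 θ * V p.1 q.1) := by
  simp only [dotProduct, mulVec, pv, Pi.star_apply, star_sum, star_mul', Fintype.sum_prod_type]
  refine Finset.sum_congr rfl fun a _ => ?_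
  rw [Finset.sum_mul]
  refine Finset.sum_congr rfl fun k _ => ?_
  rw [Finset.mul_sum]
  refine Finset.sum_congr rfl fun b _ => ?_
  rw [Finset.mul_sum, Finset.mul_sum]
  refine Finset.sum_congr rfl fun l _ => ?_
  ring

lemma T_form {W : ℝ → Matrix (Fin N) (Fin N) ℂ} (hW : Continuous W) {n : ℕ}
    (x y : Fin N × Fin n → ℂ) :
    star x ⬝ᵥ (T W n *ᵥ y) = (2 * (Real.pi : ℂ))⁻¹ *
      ∫ θ in (0 : ℝ)..(2 * Real.pi), star (pv x θ) ⬝ᵥ (W θ *ᵥ pv y θ) := by
  have hc : ∀ p q : Fin N × Fin n,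
      Continuous (fun θ => star (x p) * y q * (star (ch p.2 θ) * ch q.2 θ * W θ p.1 q.1)) := by
    intro p q
    have h1 : Continuous (fun θ => W θ p.1 q.1) := hW.matrix_elem _ _
    exact continuous_const.mul (((continuous_ch _).star.mul (continuous_ch _)).mul h1)
  simp only [form_expand]
  rw [intervalIntegral.integral_finsetSum]
  swap
  · intro p _
    exact (continuous_finsetSum _ fun q _ => hc p q).intervalIntegrable _ _
  simp only [dotProduct, mulVec, Finset.mul_sum, Pi.star_apply]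
  refine Finset.sum_congr rfl fun p _ => ?_
  rw [intervalIntegral.integral_finsetSum (fun q _ => (hc p q).intervalIntegrable _ _),
    Finset.mul_sum]
  refine Finset.sum_congr rfl fun q _ => ?_
  rw [intervalIntegral.integral_const_mul, T]
  ring

lemma T_isHermitian {W : ℝ → Matrix (Fin N) (Fin N) ℂ} (hP : ∀ θ, (W θ).PosDef) (n : ℕ) :
    (T W n).IsHermitian := by
  ext p q
  rw [Matrix.conjTranspose_apply, T, T, star_mul', star_inv₀]
  congr 1
  · simp
  · rw [intervalIntegral.integral_of_le Real.two_pi_pos.le,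
      intervalIntegral.integral_of_le Real.two_pi_pos.le,
      show star (∫ θ in Set.Ioc (0 : ℝ) (2 * Real.pi), star (ch q.2 θ) * ch p.2 θ * W θ q.1 p.1)
      = starRingEnd ℂ (∫ θ in Set.Ioc (0 : ℝ) (2 * Real.pi), star (ch q.2 θ) * ch p.2 θ * W θ q.1 p.1)
      from rfl, ← integral_conj]
    congr 1
    ext θ
    have h := (hP θ).isHermitian.apply p.1 q.1
    simp only [map_mul, starRingEnd_apply, star_star]
    rw [← h]
    ring

lemma continuous_form {W : ℝ → Matrix (Fin N) (Fin N) ℂ} (hW : Continuous W) {n : ℕ}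
    (x : Fin N × Fin n → ℂ) :
    Continuous (fun θ => star (pv x θ) ⬝ᵥ (W θ *ᵥ pv x θ)) := by
  simp only [dotProduct, mulVec, Pi.star_apply]
  refine continuous_finsetSum _ fun a _ => (continuous_pv x a).star.mul ?_
  exact continuous_finsetSum _ fun b _ => (hW.matrix_elem _ _).mul (continuous_pv x b)

lemma form_re {W : ℝ → Matrix (Fin N) (Fin N) ℂ} (hP : ∀ θ, (W θ).PosDef) {n : ℕ}
    (x : Fin N × Fin n → ℂ) (θ : ℝ) :
    star (pv x θ) ⬝ᵥ (W θ *ᵥ pv x θ) =
      (((star (pv x θ) ⬝ᵥ (W θ *ᵥ pv x θ)).re : ℝ) : ℂ) := by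
  have h := (hP θ).posSemidef.dotProduct_mulVec_nonneg (pv x θ)
  rw [Complex.nonneg_iff] at h
  apply Complex.ext <;> simp [← h.2]

/-- The quadratic form of the Toeplitz matrix as a real integral. -/
lemma T_form_re {W : ℝ → Matrix (Fin N) (Fin N) ℂ} (hW : Continuous W)
    (hP : ∀ θ, (W θ).PosDef) {n : ℕ} (x : Fin N × Fin n → ℂ) :
    star x ⬝ᵥ (T W n *ᵥ x) = (((2 * Real.pi)⁻¹ *
      ∫ θ in (0 : ℝ)..(2 * Real.pi), (star (pv x θ) ⬝ᵥ (W θ *ᵥ pv x θ)).re : ℝ) : ℂ) := by
  rw [T_form hW]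
  push_cast
  congr 1
  rw [← intervalIntegral.integral_ofReal]
  exact intervalIntegral.integral_congr fun θ _ => form_re hP x θ

/-- A vector polynomial vanishing on the circle is zero. -/
lemma pv_eq_zero {n : ℕ} {x : Fin N × Fin n → ℂ}
    (h : ∀ θ ∈ Set.Icc (0 : ℝ) (2 * Real.pi), pv x θ = 0) : x = 0 := by
  ext ⟨a, k⟩
  have hn : (0 : ℝ) < n := by
    have := k.pos
    positivity
  have hnode : ∀ j : Fin n, nd n 0 j ∈ Set.Icc (0 : ℝ) (2 * Real.pi) := by
    intro j
    have hj : ((j : ℕ) : ℝ) ≤ n := by exact_mod_cast j.isLt.le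
    have := Real.pi_pos
    constructor
    · unfold nd; positivity
    · unfold nd
      rw [zero_add, div_le_iff₀ hn]
      nlinarith
  have h1 : ∑ j : Fin n, star (ch k (nd n 0 j)) * pv x (nd n 0 j) a = n * x (a, k) := by
    simp only [pv, Finset.mul_sum]
    rw [Finset.sum_comm]
    have h2 : ∀ l : Fin n, ∑ j : Fin n, star (ch k (nd n 0 j)) * (ch l (nd n 0 j) * x (a, l)) =
        (if k = l then (n : ℂ) else 0) * x (a, l) := by
      intro l
      rw [← dft_sum' 0 k l, Finset.sum_mul]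
      refine Finset.sum_congr rfl fun j _ => by ring
    rw [Finset.sum_congr rfl fun l _ => h2 l]
    simp
  have h2 : ∑ j : Fin n, star (ch k (nd n 0 j)) * pv x (nd n 0 j) a = 0 := by
    refine Finset.sum_eq_zero fun j _ => ?_
    rw [h _ (hnode j)]
    simp
  rw [h2] at h1
  have hn' : (n : ℂ) ≠ 0 := by exact_mod_cast hn.ne'
  simpa [hn'] using h1.symm

lemma T_posDef {W : ℝ → Matrix (Fin N) (Fin N) ℂ} (hW : Continuous W)
    (hP : ∀ θ, (W θ).PosDef) (n : ℕ) : (T W n).PosDef := by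
  refine Matrix.PosDef.of_dotProduct_mulVec_pos (T_isHermitian hP n) fun x hx => ?_
  rw [T_form_re hW hP, Complex.zero_lt_real]
  refine mul_pos (by positivity) ?_
  have hc : Continuous (fun θ => (star (pv x θ) ⬝ᵥ (W θ *ᵥ pv x θ)).re) :=
    Complex.continuous_re.comp (continuous_form hW x)
  have h0 : ∀ θ, 0 ≤ (star (pv x θ) ⬝ᵥ (W θ *ᵥ pv x θ)).re := fun θ =>
    (Complex.nonneg_iff.1 ((hP θ).posSemidef.dotProduct_mulVec_nonneg (pv x θ))).1
  by_contra hcon
  apply hx
  refine pv_eq_zero fun θ hθ => ?_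
  by_contra hne
  have hpos : 0 < (star (pv x θ) ⬝ᵥ (W θ *ᵥ pv x θ)).re :=
    (Complex.pos_iff.1 ((hP θ).dotProduct_mulVec_pos hne)).1
  exact hcon (intervalIntegral.integral_pos Real.two_pi_pos hc.continuousOn (fun s _ => h0 s)
    ⟨θ, hθ, hpos⟩)

end BlockA
end CMA
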