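import Pool.Agent.Work.MP_4eb3f9_an_helper17.A2

/-!
# Block A, part 3: the Fejer kernel bound
-/

open Complex MeasureTheory Filter Topology Matrix
open scoped ContDiff ComplexOrder

namespace CMA
namespace BlockA

variable {N : ℕ}

/-- The quadratic form of a matrix. -/
noncomputable def qf (V : Matrix (Fin N) (Fin N) ℂ) (c : Fin N → ℂ) : ℝ := (star c ⬝ᵥ (V *ᵥ c)).re

lemma qf_smul (V : Matrix (Fin N) (Fin N) ℂ) (z : ℂ) (c : Fin N → ℂ) :
    qf V (z • c) = ‖z‖ ^ 2 * qf V c := by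
  unfold qf
  rw [star_smul, smul_dotProduct, Matrix.mulVec_smul, dotProduct_smul, smul_smul,
    show star z * z = ((‖z‖ ^ 2 : ℝ) : ℂ) by
      rw [show star z = starRingEnd ℂ z from rfl, Complex.conj_mul']; push_cast; rfl]
  rw [smul_eq_mul, Complex.re_ofReal_mul]

lemma continuous_qf {W : ℝ → Matrix (Fin N) (Fin N) ℂ} (hW : Continuous W) :
    Continuous (fun p : ℝ × (Fin N → ℂ) => qf (W p.1) p.2) := by
  unfold qf
  refine Complex.continuous_re.comp ?_
  simp only [dotProduct, mulVec, Pi.star_apply]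
  have hW' : ∀ a b, Continuous (fun p : ℝ × (Fin N → ℂ) => W p.1 a b) := fun a b =>
    (hW.comp continuous_fst).matrix_elem a b
  refine continuous_finsetSum _ fun a _ => Continuous.mul ?_ ?_
  · exact ((continuous_apply a).comp continuous_snd).star
  · exact continuous_finsetSum _ fun b _ => (hW' a b).mul ((continuous_apply b).comp continuous_snd)

/-- A compactness principle. -/
lemma exists_le_mul {X : Type*} [TopologicalSpace X] {K : Set X} (hK : IsCompact K) {G d : X → ℝ}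
    (hG : Continuous G) (hd : Continuous d) (hd0 : ∀ x, 0 ≤ d x)
    (h : ∀ x ∈ K, d x = 0 → G x < 0) : ∃ C : ℝ, 0 ≤ C ∧ ∀ x ∈ K, G x ≤ C * d x := by
  have hK' : IsCompact (K ∩ {x | 0 ≤ G x}) := hK.inter_right (isClosed_le continuous_const hG)
  have hpos : ∀ x ∈ K ∩ {x | 0 ≤ G x}, d x ≠ 0 := fun x hx h0 =>
    absurd hx.2 (not_le.2 (h x hx.1 h0))
  have hcont : ContinuousOn (fun x => G x / d x) (K ∩ {x | 0 ≤ G x}) :=
    hG.continuousOn.div hd.continuousOn hpos
  obtain ⟨C, hC⟩ := (hK'.bddAbove_image hcont)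
  refine ⟨max C 0, le_max_right _ _, fun x hx => ?_⟩
  by_cases hx0 : 0 ≤ G x
  · have hdx : 0 < d x := lt_of_le_of_ne (hd0 x) (Ne.symm (hpos x ⟨hx, hx0⟩))
    have h1 : G x / d x ≤ C := hC ⟨x, ⟨hx, hx0⟩, rfl⟩
    rw [div_le_iff₀ hdx] at h1
    exact h1.trans (mul_le_mul_of_nonneg_right (le_max_left _ _) hdx.le)
  · push Not at hx0
    exact hx0.le.trans (mul_nonneg (le_max_right _ _) (hd0 x))

/-- The unit sphere for the Euclidean norm. -/
def sph (N : ℕ) : Set (Fin N → ℂ) := {c | ∑ i, ‖c i‖ ^ 2 = 1}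

lemma isCompact_sph : IsCompact (sph N) := by
  refine (isCompact_closedBall (0 : Fin N → ℂ) 1).of_isClosed_subset ?_ ?_
  · refine isClosed_eq ?_ continuous_const
    fun_prop
  · intro c hc
    rw [mem_closedBall_zero_iff, pi_norm_le_iff_of_nonneg zero_le_one]
    intro i
    have h1 : ‖c i‖ ^ 2 ≤ ∑ i, ‖c i‖ ^ 2 :=
      Finset.single_le_sum (f := fun i => ‖c i‖ ^ 2) (fun _ _ => sq_nonneg _) (Finset.mem_univ i)
    rw [hc] at h1
    nlinarith [norm_nonneg (c i)]

lemma sph_ne_zero {c : Fin N → ℂ} (hc : c ∈ sph N) : c ≠ 0 := by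
  rintro rfl
  simp [sph] at hc

lemma periodic_of_exp {E : Type*} {f : ℝ → E} (hf : ∀ θ, f (θ + 2 * Real.pi) = f θ) {s t : ℝ}
    (h : Complex.exp (s * Complex.I) = Complex.exp (t * Complex.I)) : f s = f t := by
  rw [Complex.exp_eq_exp_iff_exists_int] at h
  obtain ⟨m, hm⟩ := h
  have h1 : s = t + m * (2 * Real.pi) := by
    have h2 : ((s : ℝ) : ℂ) * Complex.I = ((t + m * (2 * Real.pi) : ℝ) : ℂ) * Complex.I := by
      rw [hm]; push_cast; ring
    exact Complex.ofReal_injective (mul_right_cancel₀ Complex.I_ne_zero h2)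
  rw [h1]
  exact (show Function.Periodic f (2 * Real.pi) from hf).int_mul m t

/-- Uniform comparison of the quadratic forms. -/
lemma qf_compare {W : ℝ → Matrix (Fin N) (Fin N) ℂ} (hW : Continuous W)
    (hper : ∀ θ, W (θ + 2 * Real.pi) = W θ) (hP : ∀ θ, (W θ).PosDef) {κ : ℝ} (hκ : 0 < κ) :
    ∃ C : ℝ, 0 ≤ C ∧ ∀ s ∈ Set.Icc (0 : ℝ) (2 * Real.pi), ∀ t ∈ Set.Icc (0 : ℝ) (4 * Real.pi),
      ∀ c : Fin N → ℂ, qf (W s) c ≤
        (1 + κ + C * ‖Complex.exp (s * Complex.I) - Complex.exp (t * Complex.I)‖ ^ 2) *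
          qf (W t) c := by
  have hpos : ∀ θ (c : Fin N → ℂ), c ≠ 0 → 0 < qf (W θ) c := fun θ c hc =>
    (Complex.pos_iff.1 ((hP θ).dotProduct_mulVec_pos hc)).1
  -- compact set
  set K : Set (ℝ × ℝ × (Fin N → ℂ)) :=
    Set.Icc (0 : ℝ) (2 * Real.pi) ×ˢ Set.Icc (0 : ℝ) (4 * Real.pi) ×ˢ sph N with hKdef
  have hK : IsCompact K := isCompact_Icc.prod (isCompact_Icc.prod isCompact_sph)
  have hs : Continuous (fun p : ℝ × ℝ × (Fin N → ℂ) => qf (W p.1) p.2.2) :=
    (continuous_qf hW).comp (continuous_fst.prodMk (continuous_snd.comp continuous_snd))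
  have ht : Continuous (fun p : ℝ × ℝ × (Fin N → ℂ) => qf (W p.2.1) p.2.2) :=
    (continuous_qf hW).comp continuous_snd
  obtain ⟨C, hC0, hC⟩ := exists_le_mul hK
    (G := fun p : ℝ × ℝ × (Fin N → ℂ) => qf (W p.1) p.2.2 - (1 + κ) * qf (W p.2.1) p.2.2)
    (d := fun p => ‖Complex.exp (p.1 * Complex.I) - Complex.exp (p.2.1 * Complex.I)‖ ^ 2 *
      qf (W p.2.1) p.2.2) (hs.sub (continuous_const.mul ht)) (by
        refine Continuous.mul ?_ ht
        fun_prop) (fun p => mul_nonneg (sq_nonneg _)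
          (Complex.nonneg_iff.1 ((hP p.2.1).posSemidef.dotProduct_mulVec_nonneg p.2.2)).1) (by
        rintro ⟨s, t, c⟩ ⟨h1, h2, h3⟩ h0
        have hq := hpos t c (sph_ne_zero h3)
        have h4 : ‖Complex.exp (s * Complex.I) - Complex.exp (t * Complex.I)‖ ^ 2 = 0 :=
          (mul_eq_zero.1 h0).resolve_right hq.ne'
        have h5 : Complex.exp (s * Complex.I) = Complex.exp (t * Complex.I) := by
          rw [← sub_eq_zero]
          exact norm_eq_zero.1 (pow_eq_zero_iff (two_ne_zero) |>.1 h4)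
        have h6 : W s = W t := periodic_of_exp hper h5
        simp only [h6]
        nlinarith)
  refine ⟨C, hC0, fun s hs t ht c => ?_⟩
  by_cases hc : c = 0
  · subst hc; simp [qf]
  -- normalise
  have hS : 0 < ∑ i, ‖c i‖ ^ 2 := by
    obtain ⟨i, hi⟩ : ∃ i, c i ≠ 0 := by
      by_contra hcon
      push Not at hcon
      exact hc (funext hcon)
    have h1 : ‖c i‖ ^ 2 ≤ ∑ i, ‖c i‖ ^ 2 :=
      Finset.single_le_sum (f := fun i => ‖c i‖ ^ 2) (fun _ _ => sq_nonneg _) (Finset.mem_univ i)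
    have h2 : 0 < ‖c i‖ ^ 2 := by positivity
    linarith
  set r : ℝ := Real.sqrt (∑ i, ‖c i‖ ^ 2) with hr
  have hr0 : 0 < r := Real.sqrt_pos.2 hS
  have hr2 : r ^ 2 = ∑ i, ‖c i‖ ^ 2 := Real.sq_sqrt hS.le
  have hmem : ((r⁻¹ : ℝ) : ℂ) • c ∈ sph N := by
    simp only [sph, Set.mem_ofPred_eq, Pi.smul_apply, smul_eq_mul, norm_mul, mul_pow]
    rw [← Finset.mul_sum, ← hr2, Complex.norm_real, Real.norm_of_nonneg (by positivity)]
    field_simp
  have h := hC (s, t, ((r⁻¹ : ℝ) : ℂ) • c) ⟨hs, ht, hmem⟩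
  simp only [qf_smul] at h
  rw [Complex.norm_real, Real.norm_of_nonneg (by positivity : (0 : ℝ) ≤ r⁻¹)] at h
  have hri : 0 < (r⁻¹) ^ 2 := by positivity
  have h' : (r⁻¹) ^ 2 * (qf (W s) c) ≤ (r⁻¹) ^ 2 *
      ((1 + κ + C * ‖Complex.exp (s * Complex.I) - Complex.exp (t * Complex.I)‖ ^ 2) *
          qf (W t) c) := by linarith
  exact le_of_mul_le_mul_left h' hri

/-- The Dirichlet kernel. -/
noncomputable def dk (n : ℕ) (t θ : ℝ) : ℂ := ∑ k : Fin n, ch k θ * star (ch k t)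

lemma continuous_dk (n : ℕ) (t : ℝ) : Continuous (dk n t) := by
  unfold dk
  exact continuous_finsetSum _ fun k _ => (continuous_ch _).mul continuous_const

lemma dk_mul (n : ℕ) (t θ : ℝ) :
    ‖dk n t θ‖ ^ 2 * ‖Complex.exp (θ * Complex.I) - Complex.exp (t * Complex.I)‖ ^ 2 ≤ 4 := by
  have h1 : dk n t θ = ∑ k ∈ Finset.range n, Complex.exp (((θ - t : ℝ) : ℂ) * Complex.I) ^ k := by
    rw [dk, ← Fin.sum_univ_eq_sum_range (fun k => Complex.exp (((θ - t : ℝ) : ℂ) * Complex.I) ^ k)]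
    exact Finset.sum_congr rfl fun k _ => ch_mul_star_ch _ _ _
  have h2 : Complex.exp (θ * Complex.I) - Complex.exp (t * Complex.I) =
      Complex.exp (t * Complex.I) * (Complex.exp (((θ - t : ℝ) : ℂ) * Complex.I) - 1) := by
    rw [mul_sub, ← Complex.exp_add, mul_one]
    congr 2
    push_cast; ring
  have h3 : dk n t θ * (Complex.exp (θ * Complex.I) - Complex.exp (t * Complex.I)) =
      Complex.exp (t * Complex.I) * (Complex.exp (((θ - t : ℝ) : ℂ) * Complex.I) ^ n - 1) := by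
    rw [h2, h1, ← geom_sum_mul]
    ring
  rw [← mul_pow, ← norm_mul, h3, norm_mul, Complex.norm_exp_ofReal_mul_I, one_mul]
  have h4 : ‖Complex.exp (((θ - t : ℝ) : ℂ) * Complex.I) ^ n - 1‖ ≤ 2 := by
    refine (norm_sub_le _ _).trans ?_
    rw [norm_pow, Complex.norm_exp_ofReal_mul_I]
    norm_num
  nlinarith [norm_nonneg (Complex.exp (((θ - t : ℝ) : ℂ) * Complex.I) ^ n - 1)]

lemma integral_ch (k l : ℕ) :
    ∫ θ in (0 : ℝ)..(2 * Real.pi), star (ch k θ) * ch l θ = if k = l then 2 * (Real.pi : ℂ) else 0 := by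
  split_ifs with h
  · subst h
    simp only [star_ch_mul]
    simp
  · have h1 : ∀ θ : ℝ, star (ch k θ) * ch l θ =
        Complex.exp ((((l : ℂ) - (k : ℂ)) * Complex.I) * (θ : ℂ)) := by
      intro θ
      rw [ch, ch, show star (Complex.exp ((k : ℂ) * (θ : ℂ) * Complex.I))
        = starRingEnd ℂ (Complex.exp ((k : ℂ) * (θ : ℂ) * Complex.I)) from rfl, ← Complex.exp_conj,
        ← Complex.exp_add]
      congr 1
      simp only [map_mul, Complex.conj_natCast, Complex.conj_ofReal, Complex.conj_I]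
      ring
    have h2 : ((l : ℂ) - (k : ℂ)) * Complex.I ≠ 0 := by
      refine mul_ne_zero ?_ Complex.I_ne_zero
      rw [sub_ne_zero]
      exact_mod_cast (Ne.symm h)
    simp only [h1]
    rw [integral_exp_mul_complex h2]
    have h3 : Complex.exp (((l : ℂ) - (k : ℂ)) * Complex.I * ((2 * Real.pi : ℝ) : ℂ)) = 1 := by
      apply Complex.exp_eq_one_iff.2
      refine ⟨(l : ℤ) - (k : ℤ), ?_⟩
      push_cast
      ring
    rw [h3]
    simp

lemma normSq_dk (n : ℕ) (t θ : ℝ) : ((‖dk n t θ‖ ^ 2 : ℝ) : ℂ) =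
    ∑ k : Fin n, ∑ l : Fin n, (ch k t * star (ch l t)) * (star (ch k θ) * ch l θ) := by
  have h : ((‖dk n t θ‖ ^ 2 : ℝ) : ℂ) = star (dk n t θ) * dk n t θ := by
    rw [show star (dk n t θ) = starRingEnd ℂ (dk n t θ) from rfl, Complex.conj_mul']; push_cast; rfl
  rw [h, dk, star_sum, Finset.sum_mul]
  refine Finset.sum_congr rfl fun k _ => ?_
  rw [Finset.mul_sum]
  refine Finset.sum_congr rfl fun l _ => ?_
  rw [star_mul', star_star]
  ring

lemma integral_dk (n : ℕ) (t : ℝ) :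
    ∫ θ in (0 : ℝ)..(2 * Real.pi), ‖dk n t θ‖ ^ 2 = 2 * Real.pi * n := by
  have hc : ∀ k l : Fin n,
      Continuous (fun θ => (ch k t * star (ch l t)) * (star (ch k θ) * ch l θ)) := by
    intro k l
    exact continuous_const.mul ((continuous_ch _).star.mul (continuous_ch _))
  have h1 : ((∫ θ in (0 : ℝ)..(2 * Real.pi), ‖dk n t θ‖ ^ 2 : ℝ) : ℂ) = 2 * Real.pi * n := by
    rw [← intervalIntegral.integral_ofReal]
    simp only [normSq_dk]
    rw [intervalIntegral.integral_finsetSum (fun k _ =>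
      (continuous_finsetSum _ fun l _ => hc k l).intervalIntegrable _ _)]
    have h2 : ∀ k : Fin n, ∫ θ in (0 : ℝ)..(2 * Real.pi),
        ∑ l : Fin n, (ch k t * star (ch l t)) * (star (ch k θ) * ch l θ) = 2 * (Real.pi : ℂ) := by
      intro k
      rw [intervalIntegral.integral_finsetSum (fun l _ => (hc k l).intervalIntegrable _ _)]
      simp only [intervalIntegral.integral_const_mul, integral_ch]
      rw [Finset.sum_eq_single k]
      · rw [if_pos rfl, mul_comm (ch k t), star_ch_mul, one_mul]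
      · intro l _ hl
        rw [if_neg, mul_zero]
        intro h
        exact hl (Fin.ext h).symm
      · simp
    rw [Finset.sum_congr rfl fun k _ => h2 k]
    simp
    ring
  have h2 : (2 * Real.pi * n : ℂ) = ((2 * Real.pi * n : ℝ) : ℂ) := by push_cast; rfl
  rw [h2] at h1
  exact Complex.ofReal_injective h1

/-- The vectors concentrated at the point `t`. -/
noncomputable def xv (n : ℕ) (t : ℝ) (c : Fin N → ℂ) : Fin N × Fin n → ℂ :=
  fun p => star (ch p.2 t) * c p.1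

lemma pv_xv (n : ℕ) (t : ℝ) (c : Fin N → ℂ) (θ : ℝ) : pv (xv n t c) θ = dk n t θ • c := by
  ext a
  rw [pv, Pi.smul_apply, smul_eq_mul, dk, Finset.sum_mul]
  refine Finset.sum_congr rfl fun k _ => ?_
  rw [xv]
  ring

/-- The Fejer bound. -/
lemma fejer {W : ℝ → Matrix (Fin N) (Fin N) ℂ} (hW : Continuous W)
    (hper : ∀ θ, W (θ + 2 * Real.pi) = W θ) (hP : ∀ θ, (W θ).PosDef) {κ : ℝ} (hκ : 0 < κ) :
    ∃ n₀ : ℕ, ∀ n : ℕ, n₀ ≤ n → ∀ t ∈ Set.Icc (0 : ℝ) (4 * Real.pi), ∀ c : Fin N → ℂ,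
      (star (xv n t c) ⬝ᵥ (T W n *ᵥ xv n t c)).re ≤ n * (1 + 2 * κ) * qf (W t) c := by
  obtain ⟨C, hC0, hC⟩ := qf_compare hW hper hP hκ
  obtain ⟨n₀, hn₀⟩ := exists_nat_ge (4 * C / κ)
  refine ⟨n₀, fun n hn t ht c => ?_⟩
  have hn' : 4 * C ≤ κ * n := by
    have h1 : (n₀ : ℝ) ≤ n := by exact_mod_cast hn
    have h2 := hn₀.trans h1
    rw [div_le_iff₀ hκ] at h2
    linarith
  have hq0 : 0 ≤ qf (W t) c :=
    (Complex.nonneg_iff.1 ((hP t).posSemidef.dotProduct_mulVec_nonneg c)).1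
  rw [T_form_re hW hP, Complex.ofReal_re]
  have h1 : ∫ θ in (0 : ℝ)..(2 * Real.pi),
      (star (pv (xv n t c) θ) ⬝ᵥ (W θ *ᵥ pv (xv n t c) θ)).re ≤
      ∫ θ in (0 : ℝ)..(2 * Real.pi), ((1 + κ) * ‖dk n t θ‖ ^ 2 + 4 * C) * qf (W t) c := by
    refine intervalIntegral.integral_mono_on Real.two_pi_pos.le ?_ ?_ ?_
    · exact (Complex.continuous_re.comp (continuous_form hW _)).intervalIntegrable _ _
    · refine Continuous.intervalIntegrable ?_ _ _
      exact ((continuous_const.mul ((continuous_dk n t).norm.pow 2)).add continuous_const).mul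
        continuous_const
    · intro θ hθ
      rw [pv_xv]
      change qf (W θ) (dk n t θ • c) ≤ _
      rw [qf_smul]
      calc ‖dk n t θ‖ ^ 2 * qf (W θ) c ≤ ‖dk n t θ‖ ^ 2 *
            ((1 + κ + C * ‖Complex.exp (θ * Complex.I) - Complex.exp (t * Complex.I)‖ ^ 2) *
              qf (W t) c) := mul_le_mul_of_nonneg_left (hC θ hθ t ht c) (sq_nonneg _)
        _ = ((1 + κ) * ‖dk n t θ‖ ^ 2 + C * (‖dk n t θ‖ ^ 2 *
              ‖Complex.exp (θ * Complex.I) - Complex.exp (t * Complex.I)‖ ^ 2)) * qf (W t) c := by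
            ring
        _ ≤ ((1 + κ) * ‖dk n t θ‖ ^ 2 + 4 * C) * qf (W t) c := by
            refine mul_le_mul_of_nonneg_right ?_ hq0
            have := mul_le_mul_of_nonneg_left (dk_mul n t θ) hC0
            linarith
  have h2 : ∫ θ in (0 : ℝ)..(2 * Real.pi), ((1 + κ) * ‖dk n t θ‖ ^ 2 + 4 * C) * qf (W t) c =
      2 * Real.pi * (((1 + κ) * n + 4 * C) * qf (W t) c) := by
    rw [intervalIntegral.integral_mul_const, intervalIntegral.integral_add,
      intervalIntegral.integral_const_mul, integral_dk]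
    · simp only [intervalIntegral.integral_const, sub_zero, smul_eq_mul]
      ring
    · exact (continuous_const.mul ((continuous_dk n t).norm.pow 2)).intervalIntegrable _ _
    · exact continuous_const.intervalIntegrable _ _
  rw [h2] at h1
  calc (2 * Real.pi)⁻¹ * ∫ θ in (0 : ℝ)..(2 * Real.pi),
      (star (pv (xv n t c) θ) ⬝ᵥ (W θ *ᵥ pv (xv n t c) θ)).re
      ≤ (2 * Real.pi)⁻¹ * (2 * Real.pi * (((1 + κ) * n + 4 * C) * qf (W t) c)) :=
        mul_le_mul_of_nonneg_left h1 (by positivity)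
    _ = ((1 + κ) * n + 4 * C) * qf (W t) c := by
        rw [← mul_assoc, inv_mul_cancel₀ (by positivity), one_mul]
    _ ≤ n * (1 + 2 * κ) * qf (W t) c := by
        refine mul_le_mul_of_nonneg_right ?_ hq0
        linarith

end BlockA
end CMA
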