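import Pool.Agent.Work.MP_4eb3f9_an_helper17.A3

/-!
# Block A, part 4: upper bound for the Toeplitz determinants
-/

open Complex MeasureTheory Filter Topology Matrix
open scoped ContDiff ComplexOrder Kronecker

namespace CMA
namespace BlockA

variable {N : ℕ}

/-- Node bound: the determinant of `T W n` is at most the product over equidistant nodes. -/
lemma det_T_le {W : ℝ → Matrix (Fin N) (Fin N) ℂ} (hW : Continuous W)
    (hper : ∀ θ, W (θ + 2 * Real.pi) = W θ) (hP : ∀ θ, (W θ).PosDef) {κ : ℝ} (hκ : 0 < κ) :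
    ∃ n₀ : ℕ, ∀ n : ℕ, n₀ ≤ n → ∀ t ∈ Set.Icc (0 : ℝ) (2 * Real.pi),
      (T W n).det.re ≤ Real.exp (2 * κ * (N * n)) * ∏ j : Fin n, (W (nd n t j)).det.re := by
  obtain ⟨n₀, hn₀⟩ := fejer hW hper hP hκ
  refine ⟨n₀, fun n hn t ht => ?_⟩
  rcases Nat.eq_zero_or_pos n with rfl | hnpos
  · simp
  have hnR : (0 : ℝ) < n := by exact_mod_cast hnpos
  have hnC : (n : ℂ) ≠ 0 := by exact_mod_cast hnpos.ne'
  have hnode : ∀ j : Fin n, nd n t j ∈ Set.Icc (0 : ℝ) (4 * Real.pi) := by
    intro j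
    have hj : ((j : ℕ) : ℝ) ≤ n := by exact_mod_cast j.isLt.le
    have hpi := Real.pi_pos
    have h1 : 2 * Real.pi * j / n ≤ 2 * Real.pi := by
      rw [div_le_iff₀ hnR]
      nlinarith
    have h2 : 0 ≤ 2 * Real.pi * j / n := by positivity
    unfold nd
    exact ⟨by linarith [ht.1], by linarith [ht.2]⟩
  choose C hC1 hC2 using fun j : Fin n => exists_conj (hP (nd n t j))
  -- the matrix `X`
  set r : ℝ := (Real.sqrt n)⁻¹ with hr
  have hr2 : r ^ 2 = (n : ℝ)⁻¹ := by
    rw [hr, inv_pow, Real.sq_sqrt hnR.le]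
  set U : Matrix (Fin n) (Fin n) ℂ := (r : ℂ) • (dft n t)ᴴ with hU
  have hUU : Uᴴ * U = 1 := by
    rw [hU, Matrix.conjTranspose_smul, Matrix.conjTranspose_conjTranspose, Matrix.smul_mul,
      Matrix.mul_smul, dft_mul, smul_smul, smul_smul,
      show star (r : ℂ) = (r : ℂ) from Complex.conj_ofReal r]
    have : (r : ℂ) * (r : ℂ) * (n : ℂ) = 1 := by
      have h1 : (r : ℂ) * (r : ℂ) * (n : ℂ) = ((r ^ 2 * n : ℝ) : ℂ) := by push_cast; ring
      rw [h1, hr2, inv_mul_cancel₀ hnR.ne']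
      simp
    rw [this, one_smul]
  have hUdet : ‖U.det‖ = 1 := by
    have h1 := congrArg Matrix.det hUU
    rw [Matrix.det_mul, Matrix.det_conjTranspose, Matrix.det_one,
      show star U.det = starRingEnd ℂ U.det from rfl, Complex.conj_mul'] at h1
    have h2 : ‖U.det‖ ^ 2 = 1 := by exact_mod_cast h1
    have h3 := norm_nonneg U.det
    nlinarith
  set X : Matrix (Fin N × Fin n) (Fin N × Fin n) ℂ :=
    ((1 : Matrix (Fin N) (Fin N) ℂ) ⊗ₖ U) * Matrix.blockDiagonal C with hX
  have hXapply : ∀ a k b j, X (a, k) (b, j) = (r : ℂ) * (star (ch k (nd n t j)) * C j a b) := by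
    intro a k b j
    rw [hX, Matrix.mul_apply, Fintype.sum_prod_type]
    rw [Finset.sum_eq_single a]
    · rw [Finset.sum_eq_single j]
      · rw [Matrix.kroneckerMap_apply, Matrix.blockDiagonal_apply, if_pos rfl, Matrix.one_apply_eq,
          hU, Matrix.smul_apply, Matrix.conjTranspose_apply, dft]
        simp only [one_mul, smul_eq_mul, mul_assoc]
      · intro j' _ hj'
        rw [Matrix.blockDiagonal_apply, if_neg hj', mul_zero]
      · simp
    · intro a' _ ha'
      refine Finset.sum_eq_zero fun j' _ => ?_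
      rw [Matrix.kroneckerMap_apply, Matrix.one_apply_ne (Ne.symm ha'), zero_mul, zero_mul]
    · simp
  have hXdet : ‖X.det‖ ^ 2 = ∏ j, ‖(C j).det‖ ^ 2 := by
    rw [hX, Matrix.det_mul, Matrix.det_kronecker, Matrix.det_blockDiagonal, Matrix.det_one, one_pow,
      one_mul, norm_mul, norm_pow, hUdet, one_pow, one_mul, norm_prod, Finset.prod_pow]
  set M := Xᴴ * T W n * X with hM
  have hMpos : M.PosSemidef := (T_posDef hW hP n).posSemidef.conjTranspose_mul_mul_same X
  have hMdiag : ∀ p : Fin N × Fin n, (M p p).re ≤ 1 + 2 * κ := by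
    rintro ⟨b, j⟩
    have hcol : (fun q => X q (b, j)) = (r : ℂ) • xv n (nd n t j) (fun a => C j a b) := by
      ext ⟨a, k⟩
      rw [hXapply, Pi.smul_apply, smul_eq_mul, xv]
    have h1 : M (b, j) (b, j) = star (fun q => X q (b, j)) ⬝ᵥ (T W n *ᵥ (fun q => X q (b, j))) := by
      rw [hM, Matrix.mul_assoc, Matrix.mul_apply, dotProduct]
      refine Finset.sum_congr rfl fun q _ => ?_
      rw [Matrix.conjTranspose_apply, Matrix.mul_apply, mulVec, Pi.star_apply]
      rfl
    have h2 : qf (W (nd n t j)) (fun a => C j a b) = 1 := by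
      have h3 := congrFun (congrFun (hC1 j) b) b
      rw [Matrix.one_apply_eq, Matrix.mul_assoc, Matrix.mul_apply] at h3
      have h4 := congrArg Complex.re h3
      rw [Complex.one_re] at h4
      rw [← h4, qf, dotProduct]
      congr 1
    rw [h1, hcol, star_smul, smul_dotProduct, Matrix.mulVec_smul, dotProduct_smul, smul_smul,
      show star (r : ℂ) * (r : ℂ) = (((n : ℝ)⁻¹ : ℝ) : ℂ) by
        rw [← hr2, show star (r : ℂ) = (r : ℂ) from Complex.conj_ofReal r]; push_cast; ring,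
      smul_eq_mul, Complex.re_ofReal_mul]
    have h5 := hn₀ n hn (nd n t j) (hnode j) (fun a => C j a b)
    rw [h2, mul_one] at h5
    calc (n : ℝ)⁻¹ * _ ≤ (n : ℝ)⁻¹ * (n * (1 + 2 * κ)) :=
          mul_le_mul_of_nonneg_left h5 (by positivity)
      _ = 1 + 2 * κ := by rw [← mul_assoc, inv_mul_cancel₀ hnR.ne', one_mul]
  have hMtr : M.trace.re ≤ (1 + 2 * κ) * (N * n) := by
    rw [Matrix.trace, Complex.re_sum]
    calc ∑ p, (M.diag p).re ≤ ∑ _p : Fin N × Fin n, (1 + 2 * κ) :=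
          Finset.sum_le_sum fun p _ => hMdiag p
      _ = (1 + 2 * κ) * (N * n) := by
        rw [Finset.sum_const, Finset.card_univ, Fintype.card_prod, Fintype.card_fin,
          Fintype.card_fin, nsmul_eq_mul]
        push_cast; ring
  have hMdet : M.det.re ≤ Real.exp (2 * κ * (N * n)) := by
    refine (det_le_exp hMpos).trans (Real.exp_le_exp.2 ?_)
    rw [Fintype.card_prod, Fintype.card_fin, Fintype.card_fin]
    push_cast
    linarith
  have hMdet2 : M.det.re = ‖X.det‖ ^ 2 * (T W n).det.re := by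
    rw [hM, Matrix.det_mul, Matrix.det_mul, Matrix.det_conjTranspose, mul_right_comm,
      show star X.det = starRingEnd ℂ X.det from rfl, Complex.conj_mul']
    rw [show ((‖X.det‖ : ℂ) ^ 2) = ((‖X.det‖ ^ 2 : ℝ) : ℂ) by push_cast; rfl, Complex.re_ofReal_mul]
  have hprod : (∏ j, ‖(C j).det‖ ^ 2) * ∏ j : Fin n, (W (nd n t j)).det.re = 1 := by
    rw [← Finset.prod_mul_distrib]
    exact Finset.prod_eq_one fun j _ => hC2 j
  have hprodpos : 0 ≤ ∏ j : Fin n, (W (nd n t j)).det.re :=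
    Finset.prod_nonneg fun j _ => ((Complex.pos_iff.1 (hP _).det_pos).1).le
  calc (T W n).det.re = ((∏ j, ‖(C j).det‖ ^ 2) * ∏ j : Fin n, (W (nd n t j)).det.re) *
        (T W n).det.re := by rw [hprod, one_mul]
    _ = M.det.re * ∏ j : Fin n, (W (nd n t j)).det.re := by rw [hMdet2, hXdet]; ring
    _ ≤ _ := mul_le_mul_of_nonneg_right hMdet hprodpos

/-- The logarithm of the determinant of the symbol. -/
noncomputable def ld (W : ℝ → Matrix (Fin N) (Fin N) ℂ) (θ : ℝ) : ℝ := Real.log (W θ).det.re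

lemma continuous_ld {W : ℝ → Matrix (Fin N) (Fin N) ℂ} (hW : Continuous W)
    (hP : ∀ θ, (W θ).PosDef) : Continuous (ld W) := by
  unfold ld
  refine Continuous.log ?_ fun θ => ((Complex.pos_iff.1 (hP θ).det_pos).1).ne'
  exact Complex.continuous_re.comp hW.matrix_det

lemma log_det_T_le {W : ℝ → Matrix (Fin N) (Fin N) ℂ} (hW : Continuous W)
    (hper : ∀ θ, W (θ + 2 * Real.pi) = W θ) (hP : ∀ θ, (W θ).PosDef) {κ : ℝ} (hκ : 0 < κ) :
    ∃ n₀ : ℕ, ∀ n : ℕ, n₀ ≤ n →
      Real.log (T W n).det.re ≤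
        n * (2 * κ * N + (2 * Real.pi)⁻¹ * ∫ θ in (0 : ℝ)..(2 * Real.pi), ld W θ) := by
  obtain ⟨n₀, hn₀⟩ := det_T_le hW hper hP hκ
  refine ⟨n₀, fun n hn => ?_⟩
  have hD : 0 < (T W n).det.re := (Complex.pos_iff.1 (T_posDef hW hP n).det_pos).1
  have hWd : ∀ θ, 0 < (W θ).det.re := fun θ => (Complex.pos_iff.1 (hP θ).det_pos).1
  have hpt : ∀ t ∈ Set.Icc (0 : ℝ) (2 * Real.pi),
      Real.log (T W n).det.re ≤ 2 * κ * (N * n) + ∑ j : Fin n, ld W (nd n t j) := by
    intro t ht
    have h1 := Real.log_le_log hD (hn₀ n hn t ht)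
    rw [Real.log_mul (Real.exp_pos _).ne' (Finset.prod_pos fun j _ => hWd _).ne', Real.log_exp,
      Real.log_prod (fun j _ => (hWd _).ne')] at h1
    exact h1
  have hld := continuous_ld hW hP
  have hldper : Function.Periodic (ld W) (2 * Real.pi) := fun θ => by rw [ld, ld, hper]
  have hcj : ∀ j : Fin n, Continuous (fun t => ld W (nd n t j)) := by
    intro j
    unfold nd
    exact hld.comp (by fun_prop)
  have hint := intervalIntegral.integral_mono_on (a := 0) (b := 2 * Real.pi) (μ := volume)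
    Real.two_pi_pos.le
    (f := fun _ => Real.log (T W n).det.re)
    (g := fun t => 2 * κ * (N * n) + ∑ j : Fin n, ld W (nd n t j))
    (continuous_const.intervalIntegrable _ _)
    ((continuous_const.add (continuous_finsetSum _ fun j _ => hcj j)).intervalIntegrable _ _) hpt
  rw [intervalIntegral.integral_add (continuous_const.intervalIntegrable _ _)
    ((continuous_finsetSum _ fun j _ => hcj j).intervalIntegrable _ _),
    intervalIntegral.integral_finsetSum (fun j _ => (hcj j).intervalIntegrable _ _)] at hint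
  have hshift : ∀ j : Fin n, ∫ t in (0 : ℝ)..(2 * Real.pi), ld W (nd n t j) =
      ∫ θ in (0 : ℝ)..(2 * Real.pi), ld W θ := by
    intro j
    unfold nd
    rw [intervalIntegral.integral_comp_add_right (fun t => ld W t)]
    have := hldper.intervalIntegral_add_eq (2 * Real.pi * j / n) 0
    rw [zero_add] at this
    rw [zero_add, add_comm (2 * Real.pi) (2 * Real.pi * j / n)]
    exact this
  rw [Finset.sum_congr rfl fun j _ => hshift j] at hint
  simp only [intervalIntegral.integral_const, sub_zero, smul_eq_mul, Finset.sum_const,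
    Finset.card_univ, Fintype.card_fin, nsmul_eq_mul] at hint
  have hpi := Real.two_pi_pos
  have h2 : Real.log (T W n).det.re = (2 * Real.pi)⁻¹ * (2 * Real.pi * Real.log (T W n).det.re) := by
    rw [← mul_assoc, inv_mul_cancel₀ hpi.ne', one_mul]
  rw [h2]
  calc (2 * Real.pi)⁻¹ * (2 * Real.pi * Real.log (T W n).det.re)
      ≤ (2 * Real.pi)⁻¹ * (2 * Real.pi * (2 * κ * (N * n)) +
        n * ∫ θ in (0 : ℝ)..(2 * Real.pi), ld W θ) := mul_le_mul_of_nonneg_left hint (by positivity)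
    _ = n * (2 * κ * N + (2 * Real.pi)⁻¹ * ∫ θ in (0 : ℝ)..(2 * Real.pi), ld W θ) := by
      field_simp

/-- A step with small increment of `log det`. -/
lemma exists_step {W : ℝ → Matrix (Fin N) (Fin N) ℂ} (hW : Continuous W)
    (hper : ∀ θ, W (θ + 2 * Real.pi) = W θ) (hP : ∀ θ, (W θ).PosDef) {ε : ℝ} (hε : 0 < ε) :
    ∃ k : ℕ, Real.log (T W (k + 1)).det.re - Real.log (T W k).det.re ≤
      (2 * Real.pi)⁻¹ * (∫ θ in (0 : ℝ)..(2 * Real.pi), ld W θ) + ε := by
  have hκ : 0 < ε / (4 * (N + 1)) := by positivity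
  obtain ⟨n₀, hn₀⟩ := log_det_T_le hW hper hP hκ
  by_contra hcon
  push Not at hcon
  set m := (2 * Real.pi)⁻¹ * (∫ θ in (0 : ℝ)..(2 * Real.pi), ld W θ) with hm
  have h1 : ∀ n : ℕ, (n : ℝ) * (m + ε) ≤ Real.log (T W n).det.re := by
    intro n
    induction n with
    | zero => simp
    | succ n ih =>
      have := hcon n
      push_cast
      linarith
  have h2 := h1 (n₀ + 1)
  have h3 := hn₀ (n₀ + 1) (Nat.le_succ _)
  have h4 : 2 * (ε / (4 * (N + 1))) * N ≤ ε / 2 := by
    have hN : (0 : ℝ) ≤ N := Nat.cast_nonneg _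
    rw [show 2 * (ε / (4 * ((N : ℝ) + 1))) * N = ε / 2 * (N / (N + 1)) by field_simp; ring]
    have h5 : (N : ℝ) / (N + 1) ≤ 1 := by
      rw [div_le_one (by positivity)]; linarith
    nlinarith
  have h6 : (0 : ℝ) < ((n₀ + 1 : ℕ) : ℝ) := by positivity
  have h7 : ((n₀ + 1 : ℕ) : ℝ) * (m + ε) ≤ ((n₀ + 1 : ℕ) : ℝ) * (ε / 2 + m) := by
    refine h2.trans (h3.trans (mul_le_mul_of_nonneg_left ?_ h6.le))
    linarith
  have h8 := le_of_mul_le_mul_left h7 h6
  linarith

end BlockA
end CMA
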