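import Pool.Agent.Work.MP_4eb3f9_an_helper17.A4

/-!
# Block A, part 5: the extremal polynomial, and `Stmt_A`
-/

open Complex MeasureTheory Filter Topology Matrix
open scoped ContDiff ComplexOrder

namespace CMA
namespace BlockA

variable {N : ℕ}

/-- Splitting off the frequency `0`. -/
def spl (N k : ℕ) : Fin N × Fin (k + 1) ≃ Fin N ⊕ (Fin N × Fin k) where
  toFun p := Fin.cases (Sum.inl p.1) (fun i => Sum.inr (p.1, i)) p.2
  invFun s := Sum.elim (fun a => (a, 0)) (fun q => (q.1, q.2.succ)) s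
  left_inv := by
    rintro ⟨a, j⟩
    induction j using Fin.cases <;> rfl
  right_inv := by
    rintro (a | ⟨a, i⟩) <;> rfl

/-- The off-diagonal block. -/
noncomputable def Bk (W : ℝ → Matrix (Fin N) (Fin N) ℂ) (k : ℕ) :
    Matrix (Fin N) (Fin N × Fin k) ℂ := fun a q => T W (k + 1) (a, 0) (q.1, q.2.succ)

/-- The corner block. -/
noncomputable def Ak (W : ℝ → Matrix (Fin N) (Fin N) ℂ) (k : ℕ) :
    Matrix (Fin N) (Fin N) ℂ := fun a b => T W (k + 1) (a, 0) (b, 0)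

lemma T_blocks {W : ℝ → Matrix (Fin N) (Fin N) ℂ} (hP : ∀ θ, (W θ).PosDef) (k : ℕ) :
    (T W (k + 1)).submatrix (spl N k).symm (spl N k).symm =
      Matrix.fromBlocks (Ak W k) (Bk W k) (Bk W k)ᴴ (T W k) := by
  ext s s'
  rcases s with a | ⟨a, i⟩ <;> rcases s' with b | ⟨b, j⟩
  · rfl
  · rfl
  · rw [Matrix.fromBlocks_apply₂₁, Matrix.conjTranspose_apply]
    exact ((T_isHermitian hP (k + 1)).apply _ _).symm
  · rw [Matrix.fromBlocks_apply₂₂]
    change T W (k + 1) (a, i.succ) (b, j.succ) = T W k (a, i) (b, j)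
    unfold T
    simp only [Fin.val_succ, star_ch_mul_add]

/-- The Schur complement. -/
noncomputable def Sk (W : ℝ → Matrix (Fin N) (Fin N) ℂ) (k : ℕ) : Matrix (Fin N) (Fin N) ℂ :=
  Ak W k - Bk W k * (T W k)⁻¹ * (Bk W k)ᴴ

lemma det_Sk {W : ℝ → Matrix (Fin N) (Fin N) ℂ} (hW : Continuous W)
    (hP : ∀ θ, (W θ).PosDef) (k : ℕ) :
    (T W (k + 1)).det = (T W k).det * (Sk W k).det := by
  have hu : IsUnit (T W k) := (T_posDef hW hP k).isUnit
  let _ : Invertible (T W k) := hu.invertible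
  rw [← Matrix.det_submatrix_equiv_self (spl N k).symm, T_blocks hP, Matrix.det_fromBlocks₂₂, Sk,
    Matrix.invOf_eq_nonsing_inv]

lemma Sk_posDef {W : ℝ → Matrix (Fin N) (Fin N) ℂ} (hW : Continuous W)
    (hP : ∀ θ, (W θ).PosDef) (k : ℕ) : (Sk W k).PosDef := by
  have hu : IsUnit (T W k) := (T_posDef hW hP k).isUnit
  let _ : Invertible (T W k) := hu.invertible
  have h1 : (Sk W k).PosSemidef := by
    rw [Sk, ← Matrix.PosDef.fromBlocks₂₂ _ _ (T_posDef hW hP k), ← T_blocks hP]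
    exact (T_posDef hW hP (k + 1)).posSemidef.submatrix _
  rw [h1.posDef_iff_det_ne_zero]
  intro h0
  have h2 := det_Sk hW hP k
  rw [h0, mul_zero] at h2
  exact (T_posDef hW hP (k + 1)).det_pos.ne' h2

lemma log_det_Sk {W : ℝ → Matrix (Fin N) (Fin N) ℂ} (hW : Continuous W)
    (hP : ∀ θ, (W θ).PosDef) (k : ℕ) :
    Real.log (Sk W k).det.re = Real.log (T W (k + 1)).det.re - Real.log (T W k).det.re := by
  have h1 := Complex.pos_iff.1 (T_posDef hW hP k).det_pos
  have h2 := Complex.pos_iff.1 (Sk_posDef hW hP k).det_pos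
  have h3 : (T W (k + 1)).det.re = (T W k).det.re * (Sk W k).det.re := by
    rw [det_Sk hW hP k, Complex.mul_re, ← h1.2, zero_mul, sub_zero]
  rw [h3, Real.log_mul h1.1.ne' h2.1.ne']
  ring

/-- The form of `T W (k+1)` at the extremal vector. -/
lemma form_ext {W : ℝ → Matrix (Fin N) (Fin N) ℂ} (hW : Continuous W)
    (hP : ∀ θ, (W θ).PosDef) (k : ℕ) (u : Fin N → ℂ) (x : Fin N × Fin (k + 1) → ℂ)
    (hx0 : ∀ a, x (a, 0) = u a)
    (hx1 : ∀ a i, x (a, Fin.succ i) = - (((T W k)⁻¹ * (Bk W k)ᴴ) *ᵥ u) (a, i)) :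
    star x ⬝ᵥ (T W (k + 1) *ᵥ x) = star u ⬝ᵥ (Sk W k *ᵥ u) := by
  have hu : IsUnit (T W k) := (T_posDef hW hP k).isUnit
  let _ : Invertible (T W k) := hu.invertible
  have h1 : star x ⬝ᵥ (T W (k + 1) *ᵥ x) =
      star (x ∘ (spl N k).symm) ⬝ᵥ
        ((T W (k + 1)).submatrix (spl N k).symm (spl N k).symm *ᵥ (x ∘ (spl N k).symm)) := by
    simp only [dotProduct, mulVec, Pi.star_apply, Function.comp_apply, Matrix.submatrix_apply]
    rw [← Equiv.sum_comp (spl N k).symm]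
    refine Finset.sum_congr rfl fun s _ => ?_
    rw [← Equiv.sum_comp (spl N k).symm (fun q => T W (k + 1) ((spl N k).symm s) q * x q)]
  have h2 : x ∘ (spl N k).symm = Sum.elim u (-(((T W k)⁻¹ * (Bk W k)ᴴ) *ᵥ u)) := by
    ext s
    rcases s with a | ⟨a, i⟩
    · exact hx0 a
    · exact hx1 a i
  rw [h1, h2, T_blocks hP, dotProduct_mulVec,
    Matrix.schur_complement_eq₂₂ (Ak W k) (Bk W k) u _ (T_isHermitian hP k),
    add_neg_cancel, dotProduct_zero, zero_add, ← dotProduct_mulVec, Sk]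

end BlockA

open BlockA in
/-- **Block A.** Finite-dimensional Szego-Masani inequality. -/
theorem stmt_A : Stmt_A := by
  intro N W hW hper hP ε hε
  obtain ⟨k, hk⟩ := exists_step hW hper hP hε
  obtain ⟨Y, hY1, hY2⟩ := exists_conj (Sk_posDef hW hP k)
  refine ⟨k, fun j => Fin.cases (motive := fun _ => Matrix (Fin N) (Fin N) ℂ) Y
    (fun i a b => -((T W k)⁻¹ * (Bk W k)ᴴ * Y) (a, i) b) j, ?_, ?_⟩
  · intro c
    set E : Fin (k + 1) → Matrix (Fin N) (Fin N) ℂ :=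
      fun j => Fin.cases (motive := fun _ => Matrix (Fin N) (Fin N) ℂ) Y
        (fun i a b => -((T W k)⁻¹ * (Bk W k)ᴴ * Y) (a, i) b) j with hE
    set x : Fin N × Fin (k + 1) → ℂ := fun p => (E p.2 *ᵥ c) p.1 with hx
    have hpv : ∀ θ : ℝ, ((∑ j : Fin (k + 1),
        Complex.exp (((j : ℕ) : ℂ) * (θ : ℂ) * Complex.I) • E j).mulVec c) = pv x θ := by
      intro θ
      ext a
      rw [Matrix.sum_mulVec, Finset.sum_apply, pv]
      refine Finset.sum_congr rfl fun j _ => ?_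
      rw [Matrix.smul_mulVec, Pi.smul_apply, smul_eq_mul, ch]
    simp only [hpv]
    have hform := form_ext hW hP k (Y *ᵥ c) x (fun a => rfl) (by
      intro a i
      rw [Matrix.mulVec_mulVec]
      change ∑ b, (-((T W k)⁻¹ * (Bk W k)ᴴ * Y) (a, i) b) * c b =
        -∑ b, ((T W k)⁻¹ * (Bk W k)ᴴ * Y) (a, i) b * c b
      simp only [neg_mul, Finset.sum_neg_distrib])
    have h1 : star (Y *ᵥ c) ⬝ᵥ (Sk W k *ᵥ (Y *ᵥ c)) = ((∑ i, ‖c i‖ ^ 2 : ℝ) : ℂ) := by
      rw [Matrix.star_mulVec, ← dotProduct_mulVec, Matrix.mulVec_mulVec, Matrix.mulVec_mulVec,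
        hY1, Matrix.one_mulVec, dotProduct]
      push_cast
      refine Finset.sum_congr rfl fun i _ => ?_
      rw [Pi.star_apply, show star (c i) = starRingEnd ℂ (c i) from rfl, Complex.conj_mul']
    rw [h1, T_form_re hW hP] at hform
    have h2 := Complex.ofReal_injective hform
    have hpi := Real.two_pi_pos
    rw [← h2, ← mul_assoc, mul_inv_cancel₀ hpi.ne', one_mul]
  · change _ ≤ ‖Y.det‖ ^ 2
    rw [← log_det_Sk hW hP] at hk
    have hS := (Complex.pos_iff.1 (Sk_posDef hW hP k).det_pos).1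
    have h1 : ‖Y.det‖ ^ 2 = Real.exp (-Real.log (Sk W k).det.re) := by
      rw [Real.exp_neg, Real.exp_log hS, eq_comm, inv_eq_iff_eq_inv, eq_comm]
      exact inv_eq_of_mul_eq_one_right hY2
    rw [h1]
    apply Real.exp_le_exp.2
    have h2 : -(∫ θ in (0 : ℝ)..(2 * Real.pi), Real.log (W θ).det.re) / (2 * Real.pi) - ε =
        -((2 * Real.pi)⁻¹ * (∫ θ in (0 : ℝ)..(2 * Real.pi), ld W θ) + ε) := by
      simp only [ld]
      ring
    rw [h2]
    linarith

end CMA
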